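import Mathlib
import Pool.Agent.H5.PC.Final

set_option autoImplicit false

/-!
A direct system of classifying spaces of `p`-local finite groups whose homotopy colimit has the
classifying space of a `p`-compact group as `p`-completion, and a map from the `p`-completed
classifying space of a finite group to it which does not factor through any stage.
-/

open CategoryTheory Limits Simplicial Opposite Pool.Agent.H5.PC

namespace Pool.Agent.Results.MP_ce8751_gt.NoFactor

theorem result (p : ℕ) [Fact p.Prime] :
    ∃ (X : ℕ ⥤ SSet.{0}) (c : Cocone X) (_ : IsColimit c) (BX : SSet.{0})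
      (η : c.pt ⟶ BX) (G : Type) (_ : Group G) (_ : Finite G) (Y : SSet.{0})
      (κ : nerve (SingleObj G) ⟶ Y) (g : Y ⟶ BX),
      (∀ m, IsPLocalFinite p (X.obj m)) ∧ (∀ (m n : ℕ) (f : m ⟶ n), Mono (X.map f)) ∧
      IsPCompletion p η ∧ IsPCompact p BX ∧ IsPCompletion p κ ∧ IsPLocalFinite p Y ∧
      ∀ (m : ℕ) (g' : Y ⟶ X.obj m), ¬ Htpic (g' ≫ c.ι.app m ≫ η) g :=
  main p

end Pool.Agent.Results.MP_ce8751_gt.NoFactor
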